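import Pool.Agent.H96gur.Final

set_option autoImplicit false

namespace Pool.Agent.Results.MP_f735f2_an.EveryCardinal

open Cardinal

universe u

/-- Membership in the class of spaces of density less than `κ`, read as the class of
finite-dimensional spaces when `κ = ℵ₀`. -/
def DensLT (κ : Cardinal.{u}) (X : Type u) [NormedAddCommGroup X] [NormedSpace ℝ X] : Prop :=
  (κ = ℵ₀ ∧ FiniteDimensional ℝ X) ∨ (κ ≠ ℵ₀ ∧ ∃ s : Set X, Dense s ∧ #s < κ)

/-- `X` is of universal disposition for the class of Banach spaces of density `< κ`. -/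
def UniversalDisposition (κ : Cardinal.{u}) (X : Type u) [NormedAddCommGroup X]
    [NormedSpace ℝ X] : Prop :=
  ∀ (A B : Type u) [NormedAddCommGroup A] [NormedSpace ℝ A] [CompleteSpace A]
    [NormedAddCommGroup B] [NormedSpace ℝ B] [CompleteSpace B], DensLT κ A → DensLT κ B →
    ∀ (f : A →ₗᵢ[ℝ] X) (i : A →ₗᵢ[ℝ] B), ∃ g : B →ₗᵢ[ℝ] X, ∀ a, g (i a) = f a

/-- `X` is homogeneous with respect to its (closed) subspaces of density `< κ`. -/
def Homogeneous (κ : Cardinal.{u}) (X : Type u) [NormedAddCommGroup X]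
    [NormedSpace ℝ X] : Prop :=
  ∀ (E F : Submodule ℝ X), IsClosed (E : Set X) → IsClosed (F : Set X) →
    DensLT κ E → DensLT κ F → ∀ h : E ≃ₗᵢ[ℝ] F, ∃ g : X ≃ₗᵢ[ℝ] X, ∀ e : E, g e = h e

/-- For every infinite cardinal `κ` there is a Banach space of universal disposition for the
spaces of density `< κ` which is not homogeneous with respect to them. -/
theorem result : ∀ κ : Cardinal.{u}, ℵ₀ ≤ κ →
    ∃ (X : Type u) (_ : NormedAddCommGroup X) (_ : NormedSpace ℝ X) (_ : CompleteSpace X),
      UniversalDisposition κ X ∧ ¬ Homogeneous κ X := by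
  intro κ hκ
  have hJi : Infinite κ.out := by rw [infinite_iff, mk_out]; exact hκ
  obtain ⟨X, i1, i2, i3, h1, x, y, hx, hy, h2⟩ := Pool.Agent.H96gur.main.{u, u} κ.out
  refine ⟨X, i1, i2, i3, ?_, ?_⟩
  · intro A B _ _ _ _ _ _ hA hB f i
    have hd : ∃ d : κ.out → B, DenseRange d := by
      rcases hB with ⟨-, hB⟩ | ⟨-, s, hs, hsκ⟩
      · have : ProperSpace B := FiniteDimensional.proper ℝ B
        obtain ⟨g, hg⟩ := Pool.Agent.H96gur.Small.of_countable (J := κ.out)
          (Set.countable_range (TopologicalSpace.denseSeq B))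
        refine ⟨g, (TopologicalSpace.denseRange_denseSeq B).mono hg⟩
      · have hne : s.Nonempty := hs.nonempty
        have hle : #s ≤ #κ.out := by rw [mk_out]; exact hsκ.le
        obtain ⟨e⟩ := Cardinal.le_def s κ.out |>.1 hle
        have : Nonempty s := hne.to_subtype
        refine ⟨fun j => (Function.invFun e j : s), hs.mono ?_⟩
        intro b hb
        exact ⟨e ⟨b, hb⟩, by simp [Function.leftInverse_invFun e.injective _]⟩
    obtain ⟨g, hg⟩ := h1 B hd (LinearMap.range i.toLinearMap)
      (f.comp i.equivRange.symm.toLinearIsometry)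
    refine ⟨g, fun a => ?_⟩
    have h3 := hg (i.equivRange a)
    have h4 : ((i.equivRange a : LinearMap.range i.toLinearMap) : B) = i a := rfl
    rw [h4] at h3
    rw [h3]
    simp
  · intro h
    let ex := LinearIsometryEquiv.toSpanUnitSingleton (𝕜 := ℝ) x hx
    let ey := LinearIsometryEquiv.toSpanUnitSingleton (𝕜 := ℝ) y hy
    have hD : ∀ E : Submodule ℝ X, FiniteDimensional ℝ E → DensLT κ E := by
      intro E hE
      by_cases hk : κ = ℵ₀
      · exact Or.inl ⟨hk, hE⟩
      · have : ProperSpace E := FiniteDimensional.proper ℝ E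
        refine Or.inr ⟨hk, Set.range (TopologicalSpace.denseSeq E),
          TopologicalSpace.denseRange_denseSeq E, ?_⟩
        exact lt_of_le_of_lt (Set.countable_range _).le_aleph0 (lt_of_le_of_ne hκ (Ne.symm hk))
    obtain ⟨g, hg⟩ := h (ℝ ∙ x) (ℝ ∙ y) (Submodule.closed_of_finiteDimensional _)
      (Submodule.closed_of_finiteDimensional _) (hD _ inferInstance) (hD _ inferInstance)
      (ex.symm.trans ey)
    apply h2 g
    have h3 := hg (ex 1)
    have h4 : ((ex 1 : (ℝ ∙ x)) : X) = x := by simp [ex]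
    have h5 : (((ex.symm.trans ey) (ex 1) : (ℝ ∙ y)) : X) = y := by simp [ey]
    rw [h4, h5] at h3
    exact h3

end Pool.Agent.Results.MP_f735f2_an.EveryCardinal
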